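import Pool.Agent.X257.SE.Rank2

/-!
# Central extensions of Coxeter groups by a sign

Let `D₁, D₂, …` be the conjugates of the finite rank two standard parabolic subgroups `W_{s,t}` with
`c_{s,t} = -1`. Two different conjugates share at most one reflection. Choose in each `Dₖ` an
ordered pair of different reflections. The group `W'` acts on the triples `(η, N, w)`, `η ∈ ℤ/2`,
`N` a finite set of reflections (mod 2), `w ∈ W`: the generator `s` multiplies `w` by `s`, adds the
reflection `r = w⁻¹ s w` to `N`, and adds to `η` the number of `β ∈ N` such that `(r, β)` is a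
chosen pair. The generator `q` adds `1` to `η`. So `q ≠ 1`.
-/

set_option autoImplicit false
set_option linter.unusedSectionVars false

namespace Pool.Agent.Results.MP_07fa45_al.SignExtension

open Pool.Agent.X257.SE Pool.Agent.Helper703.Cox Pool.Agent.TH5.BD

universe u v

variable {B : Type u} {M : CoxeterMatrix B} {W : Type v} [Group W]

/-- `(s, t) ∈ 𝔐`: `s ≠ t` and `m(s,t)` is finite (`0` encodes `∞`). -/
def Fin2 (M : CoxeterMatrix B) (s t : B) : Prop := s ≠ t ∧ M s t ≠ 0

/-- The relation `(s, t) ∼ (s', t')`: simultaneous conjugation in `W`. -/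
def Sim (cs : CoxeterSystem M W) (s t s' t' : B) : Prop :=
  ∃ g : W, g * cs.simple s * g⁻¹ = cs.simple s' ∧ g * cs.simple t * g⁻¹ = cs.simple t'

/-- `c` is a sign choice. -/
structure IsSignChoice (cs : CoxeterSystem M W) (c : B → B → ℤˣ) : Prop where
  sim : ∀ s t s' t', Fin2 M s t → Fin2 M s' t' → Sim cs s t s' t' → c s t = c s' t'
  symm : ∀ s t, Fin2 M s t → c s t = c t s

/-- The generator of `W'` which belongs to `s ∈ S`. -/
def gs (s : B) : FreeGroup (Option B) := FreeGroup.of (some s)

/-- The generator `q` of `W'`. -/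
def gq : FreeGroup (Option B) := FreeGroup.of none

/-- The relators of `W'`. -/
inductive Rel (M : CoxeterMatrix B) (c : B → B → ℤˣ) : FreeGroup (Option B) → Prop
  | ss (s : B) : Rel M c (gs s ^ 2)
  | qq : Rel M c (gq ^ 2)
  | comm (s : B) : Rel M c (gq * gs s * gq⁻¹ * (gs s)⁻¹)
  | pos (s t : B) : Fin2 M s t → c s t = 1 → Rel M c ((gs s * gs t) ^ M s t)
  | neg (s t : B) : Fin2 M s t → c s t = -1 → Rel M c ((gs s * gs t) ^ M s t * gq⁻¹)

/-- The group `W'`. -/
abbrev W' (M : CoxeterMatrix B) (c : B → B → ℤˣ) : Type u :=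
  PresentedGroup {x : FreeGroup (Option B) | Rel M c x}

/-- The element `q` of `W'`. -/
def q (M : CoxeterMatrix B) (c : B → B → ℤˣ) : W' M c := PresentedGroup.of none

/-- The element of `W'` given by `s ∈ S`. -/
def sig (M : CoxeterMatrix B) (c : B → B → ℤˣ) (s : B) : W' M c := PresentedGroup.of (some s)

section basic

variable (c : B → B → ℤˣ)

lemma rel_eq {x : FreeGroup (Option B)} (h : Rel M c x) :
    (QuotientGroup.mk x : W' M c) = 1 :=
  PresentedGroup.one_of_mem (by exact h)

lemma sig_sq (s : B) : sig M c s ^ 2 = 1 := rel_eq c (Rel.ss s)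

lemma q_sq : q M c ^ 2 = 1 := rel_eq c Rel.qq

lemma q_comm_sig (s : B) : q M c * sig M c s = sig M c s * q M c := by
  have h : q M c * sig M c s * (q M c)⁻¹ * (sig M c s)⁻¹ = 1 := rel_eq c (Rel.comm s)
  have h2 := mul_inv_eq_one.1 h
  exact mul_inv_eq_iff_eq_mul.1 h2

lemma sig_pos {s t : B} (h : Fin2 M s t) (hc : c s t = 1) :
    (sig M c s * sig M c t) ^ M s t = 1 := rel_eq c (Rel.pos s t h hc)

lemma sig_neg {s t : B} (h : Fin2 M s t) (hc : c s t = -1) :
    (sig M c s * sig M c t) ^ M s t = q M c :=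
  mul_inv_eq_one.1 (rel_eq c (Rel.neg s t h hc))

lemma q_comm (x : W' M c) : Commute (q M c) x := by
  have hx : x ∈ Subgroup.closure (Set.range (PresentedGroup.of (rels := {x | Rel M c x}))) := by
    rw [PresentedGroup.closure_range_of]; exact Subgroup.mem_top x
  induction hx using Subgroup.closure_induction with
  | mem x hx =>
    obtain ⟨o, rfl⟩ := hx
    cases o with
    | none => exact Commute.refl _
    | some s => exact q_comm_sig c s
  | one => exact Commute.one_right _
  | mul x y _ _ hx hy => exact hx.mul_right hy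
  | inv x _ hx => exact hx.inv_right

end basic

/-- The projection `π : W' → W`, `s ↦ s`, `q ↦ 1`. -/
def π (cs : CoxeterSystem M W) (c : B → B → ℤˣ) : W' M c →* W :=
  PresentedGroup.toGroup (f := fun o : Option B => o.elim 1 cs.simple) (by
    intro x hx
    have hx' : Rel M c x := hx
    cases hx' with
    | ss s => simp [gs]
    | qq => simp [gq]
    | comm s => simp [gs, gq]
    | pos s t h hc => simp [gs]
    | neg s t h hc => simp [gs, gq])

section π

variable (cs : CoxeterSystem M W) (c : B → B → ℤˣ)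

lemma π_sig (s : B) : π cs c (sig M c s) = cs.simple s := PresentedGroup.toGroup.of _

lemma π_q : π cs c (q M c) = 1 := PresentedGroup.toGroup.of _

lemma π_surjective : Function.Surjective (π cs c) := by
  rw [← MonoidHom.range_eq_top, eq_top_iff, ← cs.subgroup_closure_range_simple,
    Subgroup.closure_le]
  rintro _ ⟨s, rfl⟩
  exact ⟨sig M c s, π_sig cs c s⟩

instance : (Subgroup.zpowers (q M c)).Normal := by
  constructor
  intro n hn g
  obtain ⟨k, rfl⟩ := Subgroup.mem_zpowers_iff.1 hn
  have h : Commute (q M c ^ k) g := (q_comm c g).zpow_left k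
  rw [← h.eq, mul_assoc, mul_inv_cancel, mul_one]
  exact hn

/-- `W → W' / ⟨q⟩` -/
noncomputable def σ : W →* W' M c ⧸ Subgroup.zpowers (q M c) :=
  cs.lift ⟨fun s => QuotientGroup.mk (sig M c s), by
    intro s t
    have hq : (QuotientGroup.mk (q M c) : W' M c ⧸ Subgroup.zpowers (q M c)) = 1 :=
      (QuotientGroup.eq_one_iff _).2 (Subgroup.mem_zpowers _)
    by_cases hst : s = t
    · subst hst
      rw [M.diagonal, pow_one, ← QuotientGroup.mk_mul, ← pow_two, sig_sq]
      rfl
    by_cases h0 : M s t = 0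
    · rw [h0, pow_zero]
    rw [← QuotientGroup.mk_mul, ← QuotientGroup.mk_pow]
    rcases Int.units_eq_one_or (c s t) with hc | hc
    · rw [sig_pos c ⟨hst, h0⟩ hc]; rfl
    · rw [sig_neg c ⟨hst, h0⟩ hc, hq]⟩

lemma ker_π : (π cs c).ker = Subgroup.zpowers (q M c) := by
  apply le_antisymm
  · intro x hx
    have h : (σ cs c).comp (π cs c) = QuotientGroup.mk' (Subgroup.zpowers (q M c)) := by
      apply PresentedGroup.ext
      rintro (_ | s)
      · change σ cs c (π cs c (q M c)) = QuotientGroup.mk (q M c)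
        rw [π_q, map_one]
        exact ((QuotientGroup.eq_one_iff _).2 (Subgroup.mem_zpowers _)).symm
      · change σ cs c (π cs c (sig M c s)) = QuotientGroup.mk (sig M c s)
        rw [π_sig]
        exact cs.lift_apply_simple _ s
    have h2 := congrArg (fun f => f x) h
    simp only [MonoidHom.comp_apply] at h2
    rw [(hx : π cs c x = 1), map_one] at h2
    exact (QuotientGroup.eq_one_iff x).1 h2.symm
  · rw [Subgroup.zpowers_le]
    exact π_q cs c

end π

/-! ### The action -/

section action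

variable (cs : CoxeterSystem M W) (D : W → W → Prop)

open Classical in
/-- The number (mod 2) of the `β ∈ N` with `(r, β)` in `D`. -/
noncomputable def pr (r : W) : (W →₀ ZMod 2) →+ ZMod 2 :=
  Finsupp.liftAddHom fun β => if D r β then AddMonoidHom.id (ZMod 2) else 0

open Classical in
lemma pr_single (r β : W) : pr D r (Finsupp.single β 1) = if D r β then 1 else 0 := by
  unfold pr
  rw [Finsupp.liftAddHom_apply_single]
  split_ifs <;> simp

/-- The set on which `W'` acts. -/
abbrev X (W : Type v) : Type v := ZMod 2 × (W →₀ ZMod 2) × W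

/-- The reflection `w⁻¹ s w`. -/
def rf (s : B) (w : W) : W := w⁻¹ * cs.simple s * w

noncomputable def act (s : B) (x : X W) : X W :=
  (x.1 + pr D (rf cs s x.2.2) x.2.1, x.2.1 + Finsupp.single (rf cs s x.2.2) 1,
    cs.simple s * x.2.2)

variable (hD : ∀ r, ¬ D r r)
include hD

lemma act_act (s : B) (x : X W) : act cs D s (act cs D s x) = x := by
  obtain ⟨η, N, w⟩ := x
  have e : rf cs s (cs.simple s * w) = rf cs s w := by
    unfold rf
    rw [mul_inv_rev, cs.inv_simple]
    simp [mul_assoc]
  have h2 : ∀ a : ZMod 2, a + a = 0 := by decide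
  unfold act
  simp only [e, map_add, pr_single, hD, if_false, add_zero]
  refine Prod.ext ?_ (Prod.ext ?_ ?_)
  · simp only [add_assoc, h2, add_zero]
  · simp only [add_assoc]
    rw [← Finsupp.single_add, h2, Finsupp.single_zero, add_zero]
  · simp

/-- `act` as a permutation. -/
noncomputable def actP (s : B) : Equiv.Perm (X W) :=
  ⟨act cs D s, act cs D s, act_act cs D hD s, act_act cs D hD s⟩

omit hD in
omit D in
/-- The reflections of the dihedral group `w⁻¹ W_{s,t} w`. -/
def ρ (s t : B) (w : W) (i : ℕ) : W :=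
  w⁻¹ * (cs.simple t * (cs.simple s * cs.simple t) ^ i) * w

omit hD in
omit D in
lemma conj_pow_aux (s t : B) (k : ℕ) :
    ((cs.simple s * cs.simple t) ^ k)⁻¹ * cs.simple t =
      cs.simple t * (cs.simple s * cs.simple t) ^ k := by
  induction k with
  | zero => simp
  | succ k ih =>
    rw [pow_succ', mul_inv_rev, mul_assoc, mul_inv_rev, cs.inv_simple, cs.inv_simple]
    have e : ((cs.simple s * cs.simple t) ^ k)⁻¹ * (cs.simple t * cs.simple s * cs.simple t) =
        (((cs.simple s * cs.simple t) ^ k)⁻¹ * cs.simple t) * (cs.simple s * cs.simple t) := by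
      simp only [mul_assoc]
    rw [e, ih, mul_assoc, ← pow_succ, ← pow_succ']

omit hD in
omit D in
lemma rf_even (s t : B) (w : W) (k : ℕ) :
    rf cs t ((cs.simple s * cs.simple t) ^ k * w) = ρ cs s t w (2 * k) := by
  unfold rf ρ
  rw [mul_inv_rev, mul_assoc w⁻¹, conj_pow_aux, two_mul, pow_add]
  simp only [mul_assoc]

omit hD in
omit D in
lemma rf_odd (s t : B) (w : W) (k : ℕ) :
    rf cs s (cs.simple t * ((cs.simple s * cs.simple t) ^ k * w)) = ρ cs s t w (2 * k + 1) := by
  unfold rf ρ
  rw [mul_inv_rev, mul_inv_rev, cs.inv_simple]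
  have e : w⁻¹ * ((cs.simple s * cs.simple t) ^ k)⁻¹ * cs.simple t * cs.simple s *
      (cs.simple t * ((cs.simple s * cs.simple t) ^ k * w)) =
      w⁻¹ * (((cs.simple s * cs.simple t) ^ k)⁻¹ * cs.simple t) * (cs.simple s * cs.simple t) *
        ((cs.simple s * cs.simple t) ^ k) * w := by simp only [mul_assoc]
  rw [e, conj_pow_aux, show 2 * k + 1 = k + 1 + k by ring, pow_add, pow_succ]
  simp only [mul_assoc]

omit hD in
omit D in
lemma ρ_add (s t : B) (w : W) (i : ℕ) : ρ cs s t w (i + M s t) = ρ cs s t w i := by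
  unfold ρ
  rw [pow_add, cs.simple_mul_simple_pow, mul_one]

/-- The sum of the first `i` reflections. -/
noncomputable def S (f : ℕ → W) (i : ℕ) : W →₀ ZMod 2 :=
  ∑ j ∈ Finset.range i, Finsupp.single (f j) 1

lemma iter (s t : B) (η : ZMod 2) (N : W →₀ ZMod 2) (w : W) (k : ℕ) :
    ((actP cs D hD s * actP cs D hD t) ^ k) (η, N, w) =
      (η + ∑ i ∈ Finset.range (2 * k), pr D (ρ cs s t w i) (N + S (ρ cs s t w) i),
        N + S (ρ cs s t w) (2 * k), (cs.simple s * cs.simple t) ^ k * w) := by
  induction k with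
  | zero => simp [S]
  | succ k ih =>
    rw [pow_succ', Equiv.Perm.mul_apply, ih, Equiv.Perm.mul_apply]
    change act cs D s (act cs D t _) = _
    unfold act
    simp only [rf_even, rf_odd]
    rw [show 2 * (k + 1) = 2 * k + 1 + 1 by ring, Finset.sum_range_succ, Finset.sum_range_succ]
    refine Prod.ext ?_ (Prod.ext ?_ ?_)
    · simp only [S, Finset.sum_range_succ, add_assoc]
    · unfold S
      rw [Finset.sum_range_succ (fun j => Finsupp.single (ρ cs s t w j) (1 : ZMod 2)) (2 * k + 1),
        Finset.sum_range_succ (fun j => Finsupp.single (ρ cs s t w j) (1 : ZMod 2)) (2 * k)]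
      simp only [add_assoc]
    · simp only [pow_succ', mul_assoc]

end action

lemma sum_zmod2 (m : ℕ) (b : ℕ → ℕ → ZMod 2) (h1 : ∀ i j, b (i + m) j = b i j)
    (h2 : ∀ i j, b i (j + m) = b i j) :
    ∑ i ∈ Finset.range (2 * m), ∑ j ∈ Finset.range i, b i j =
      ∑ i ∈ Finset.range m, ∑ j ∈ Finset.range m, b i j := by
  have h3 : ∀ a : ZMod 2, a + a = 0 := by decide
  rw [two_mul, Finset.sum_range_add]
  have e : ∀ i, ∑ j ∈ Finset.range (m + i), b (m + i) j =
      ∑ j ∈ Finset.range m, b i j + ∑ j ∈ Finset.range i, b i j := by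
    intro i
    rw [Finset.sum_range_add]
    congr 1
    · exact Finset.sum_congr rfl fun j _ => by rw [add_comm m i, h1]
    · exact Finset.sum_congr rfl fun j _ => by rw [add_comm m i, h1, add_comm m j, h2]
  simp only [e, Finset.sum_add_distrib]
  rw [add_left_comm, h3, add_zero]

section main

variable (cs : CoxeterSystem M W) (c : B → B → ℤˣ) (D : W → W → Prop) (hD : ∀ r, ¬ D r r)

include hD in
open Classical in
/-- If `D` has the right parity on every finite dihedral group, then `q ≠ 1`. -/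
lemma q_ne_one_of (h : ∀ s t, Fin2 M s t → ∀ w : W,
    ∑ i ∈ Finset.range (M s t), ∑ j ∈ Finset.range (M s t),
      (if D (ρ cs s t w i) (ρ cs s t w j) then (1 : ZMod 2) else 0) =
      if c s t = -1 then 1 else 0) : q M c ≠ 1 := by
  have h3 : ∀ a : ZMod 2, a + a = 0 := by decide
  -- the relation `(s t)^m`
  have hrel : ∀ s t, Fin2 M s t → ∀ (η : ZMod 2) (N : W →₀ ZMod 2) (w : W),
      ((actP cs D hD s * actP cs D hD t) ^ (M s t)) (η, N, w) =
        (η + (if c s t = -1 then 1 else 0), N, w) := by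
    intro s t hst η N w
    rw [iter, cs.simple_mul_simple_pow, one_mul]
    have hS : S (ρ cs s t w) (2 * M s t) = 0 := by
      unfold S
      rw [two_mul, Finset.sum_range_add]
      have e : ∀ j, ρ cs s t w (M s t + j) = ρ cs s t w j := fun j => by
        rw [add_comm, ρ_add]
      simp only [e]
      rw [← Finset.sum_add_distrib]
      apply Finset.sum_eq_zero
      intro j _
      rw [← Finsupp.single_add, h3, Finsupp.single_zero]
    rw [hS, add_zero]
    have e1 : ∑ i ∈ Finset.range (2 * M s t), pr D (ρ cs s t w i) (N + S (ρ cs s t w) i) =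
        if c s t = -1 then 1 else 0 := by
      simp only [map_add, Finset.sum_add_distrib]
      have e2 : ∑ i ∈ Finset.range (2 * M s t), pr D (ρ cs s t w i) N = 0 := by
        rw [two_mul, Finset.sum_range_add]
        have e : ∀ j, ρ cs s t w (M s t + j) = ρ cs s t w j := fun j => by
          rw [add_comm, ρ_add]
        simp only [e]
        rw [h3]
      have e3 : ∀ i, pr D (ρ cs s t w i) (S (ρ cs s t w) i) =
          ∑ j ∈ Finset.range i, (if D (ρ cs s t w i) (ρ cs s t w j) then (1 : ZMod 2) else 0) := by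
        intro i
        unfold S
        rw [map_sum]
        exact Finset.sum_congr rfl fun j _ => pr_single D _ _
      simp only [e2, e3, zero_add]
      rw [sum_zmod2 (M s t) (fun i j =>
        if D (ρ cs s t w i) (ρ cs s t w j) then (1 : ZMod 2) else 0)
        (fun i j => by simp only [ρ_add]) (fun i j => by simp only [ρ_add])]
      exact h s t hst w
    rw [e1]
  let Q : Equiv.Perm (X W) :=
    ⟨fun x => (x.1 + 1, x.2), fun x => (x.1 + 1, x.2),
      fun x => by
        have : x.1 + 1 + 1 = x.1 := by rw [add_assoc, h3, add_zero]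
        simp only [this],
      fun x => by
        have : x.1 + 1 + 1 = x.1 := by rw [add_assoc, h3, add_zero]
        simp only [this]⟩
  have hQ : ∀ x, Q x = (x.1 + 1, x.2) := fun _ => rfl
  have hQQ : Q * Q = 1 := by
    refine Equiv.ext fun x => ?_
    rw [Equiv.Perm.mul_apply, hQ, hQ, add_assoc, h3, add_zero]
    rfl
  have hAA : ∀ s, actP cs D hD s * actP cs D hD s = 1 := fun s =>
    Equiv.ext fun x => act_act cs D hD s x
  have hQA : ∀ s, Q * actP cs D hD s = actP cs D hD s * Q := by
    intro s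
    refine Equiv.ext fun x => ?_
    rw [Equiv.Perm.mul_apply, Equiv.Perm.mul_apply, hQ, hQ]
    change ((act cs D s x).1 + 1, (act cs D s x).2) = act cs D s (x.1 + 1, x.2)
    unfold act
    simp only [add_assoc, add_comm, add_left_comm]
  have hf : ∀ r ∈ {x : FreeGroup (Option B) | Rel M c x},
      FreeGroup.lift (fun o : Option B => o.elim Q (actP cs D hD)) r = 1 := by
    intro x hx
    have hx' : Rel M c x := hx
    cases hx' with
    | ss s =>
      simp only [gs, map_pow, FreeGroup.lift_apply_of, Option.elim_some]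
      rw [pow_two, hAA]
    | qq =>
      simp only [gq, map_pow, FreeGroup.lift_apply_of, Option.elim_none]
      rw [pow_two, hQQ]
    | comm s =>
      simp only [gs, gq, map_mul, map_inv, FreeGroup.lift_apply_of, Option.elim_none,
        Option.elim_some]
      rw [hQA]
      group
    | pos s t hst hc =>
      simp only [gs, map_mul, map_pow, FreeGroup.lift_apply_of, Option.elim_some]
      refine Equiv.ext fun x => ?_
      obtain ⟨η, N, w⟩ := x
      rw [hrel s t hst, hc]
      simp
    | neg s t hst hc =>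
      simp only [gs, gq, map_mul, map_pow, map_inv, FreeGroup.lift_apply_of, Option.elim_some,
        Option.elim_none]
      rw [mul_inv_eq_one]
      refine Equiv.ext fun x => ?_
      obtain ⟨η, N, w⟩ := x
      rw [hrel s t hst, hc, hQ]
      simp
  intro hq
  have h4 : PresentedGroup.toGroup hf (q M c) = Q := PresentedGroup.toGroup.of hf
  rw [hq, map_one] at h4
  have h5 := congrArg (fun f : Equiv.Perm (X W) => (f (0, 0, 1)).1) h4
  simp only [hQ, Equiv.Perm.one_apply] at h5
  exact absurd h5 (by decide)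

end main

/-! ### The choice of the pairs -/

section choice

variable [Fintype B] [DecidableEq B] (cs : CoxeterSystem M W)

/-- The dihedral subgroup `w⁻¹ W_{s,t} w`, as a set. -/
def Dh (w : W) (s t : B) : Set W := {x | w * x * w⁻¹ ∈ Par cs {s, t}}

/-- Two conjugates of rank two standard parabolic subgroups which share two different elements
`≠ 1` are equal, and the generating pairs are conjugate. -/
lemma Dh_unique {w w' : W} {s t s' t' : B} (hst : s ≠ t) (hst' : s' ≠ t') {α β : W} (h1 : α ≠ 1)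
    (h2 : β ≠ 1) (hne : α ≠ β) (ha : α ∈ Dh cs w s t) (hb : β ∈ Dh cs w s t)
    (ha' : α ∈ Dh cs w' s' t') (hb' : β ∈ Dh cs w' s' t') :
    Dh cs w s t = Dh cs w' s' t' ∧ (Sim cs s t s' t' ∨ Sim cs s t t' s') := by
  obtain ⟨u, hu, v, hv, d, hg, hl, hr⟩ := exists_double (cs := cs) {s, t} {s', t'} (w * w'⁻¹)
  have hw : w = u * d * v * w' := by rw [← hg]; group
  -- translate the two elements
  have tr : ∀ x : W, x ∈ Dh cs w s t → u⁻¹ * (w * x * w⁻¹) * u ∈ Par cs {s, t} := fun x hx =>
    mul_mem (mul_mem (inv_mem hu) hx) hu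
  have tr' : ∀ x : W, x ∈ Dh cs w' s' t' → v * (w' * x * w'⁻¹) * v⁻¹ ∈ Par cs {s', t'} :=
    fun x hx => mul_mem (mul_mem hv hx) (inv_mem hv)
  have rel : ∀ x : W, u⁻¹ * (w * x * w⁻¹) * u * d = d * (v * (w' * x * w'⁻¹) * v⁻¹) := by
    intro x
    rw [hw]
    group
  have n1 : ∀ x : W, x ≠ 1 → u⁻¹ * (w * x * w⁻¹) * u ≠ 1 := by
    intro x hx h
    apply hx
    have : x = w⁻¹ * u * (u⁻¹ * (w * x * w⁻¹) * u) * u⁻¹ * w := by group
    rw [this, h]
    group
  have n2 : u⁻¹ * (w * α * w⁻¹) * u ≠ u⁻¹ * (w * β * w⁻¹) * u := by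
    intro h
    apply hne
    have e1 : α = w⁻¹ * u * (u⁻¹ * (w * α * w⁻¹) * u) * u⁻¹ * w := by group
    have e2 : β = w⁻¹ * u * (u⁻¹ * (w * β * w⁻¹) * u) * u⁻¹ * w := by group
    rw [e1, e2, h]
  obtain ⟨i, hi, i', hi', hii, hgi, hgi'⟩ := two_good hl hr (tr α ha) (tr' α ha') (rel α)
    (tr β hb) (tr' β hb') (rel β) (n1 α h1) (n1 β h2) n2
  -- both `s` and `t` are good
  have hgst : Good cs {s', t'} d s ∧ Good cs {s', t'} d t := by
    rcases hi with rfl | hi <;> rcases hi' with rfl | hi'
    · exact absurd rfl hii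
    · rw [Set.mem_singleton_iff] at hi'; subst hi'; exact ⟨hgi, hgi'⟩
    · rw [Set.mem_singleton_iff] at hi; subst hi; exact ⟨hgi', hgi⟩
    · rw [Set.mem_singleton_iff] at hi hi'; exact absurd (hi.trans hi'.symm) hii
  obtain ⟨⟨j, hj, ej⟩, ⟨k, hk, ek⟩⟩ := hgst
  have ej' : d⁻¹ * cs.simple s * d⁻¹⁻¹ = cs.simple j := by
    rw [inv_inv, mul_assoc, ej, inv_mul_cancel_left]
  have ek' : d⁻¹ * cs.simple t * d⁻¹⁻¹ = cs.simple k := by
    rw [inv_inv, mul_assoc, ek, inv_mul_cancel_left]
  have hjk : j ≠ k := by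
    intro h
    rw [h, ← ek'] at ej'
    exact hst (simple_injective cs (mul_left_cancel (mul_right_cancel ej')))
  have hcase : (j = s' ∧ k = t') ∨ (j = t' ∧ k = s') := by
    rcases hj with rfl | hj <;> rcases hk with rfl | hk
    · exact absurd rfl hjk
    · exact Or.inl ⟨rfl, hk⟩
    · exact Or.inr ⟨hj, rfl⟩
    · rw [Set.mem_singleton_iff] at hj hk; exact absurd (hj.trans hk.symm) hjk
  refine ⟨?_, ?_⟩
  · -- `d⁻¹ W_{s,t} d = W_{s',t'}`
    have hle : ∀ x ∈ Par cs {s, t}, d⁻¹ * x * d ∈ Par cs {s', t'} := by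
      intro x hx
      unfold Par at hx
      induction hx using Subgroup.closure_induction with
      | mem x hx =>
        obtain ⟨a, ha, rfl⟩ := hx
        rcases ha with rfl | ha
        · rw [inv_inv] at ej'; rw [ej']; exact simple_mem_par hj
        · rw [Set.mem_singleton_iff] at ha; subst ha
          rw [inv_inv] at ek'; rw [ek']; exact simple_mem_par hk
      | one => simp
      | mul x y _ _ hx hy =>
        have : d⁻¹ * (x * y) * d = (d⁻¹ * x * d) * (d⁻¹ * y * d) := by group
        rw [this]; exact mul_mem hx hy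
      | inv x _ hx =>
        have : d⁻¹ * x⁻¹ * d = (d⁻¹ * x * d)⁻¹ := by group
        rw [this]; exact inv_mem hx
    have hge : ∀ x ∈ Par cs {s', t'}, d * x * d⁻¹ ∈ Par cs {s, t} := by
      intro x hx
      unfold Par at hx
      induction hx using Subgroup.closure_induction with
      | mem x hx =>
        obtain ⟨a, ha, rfl⟩ := hx
        have hjj : d * cs.simple j * d⁻¹ = cs.simple s := by rw [← ej']; group
        have hkk : d * cs.simple k * d⁻¹ = cs.simple t := by rw [← ek']; group
        have hajk : a = j ∨ a = k := by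
          rcases hcase with ⟨rfl, rfl⟩ | ⟨rfl, rfl⟩
          · exact ha
          · exact ha.symm
        rcases hajk with rfl | rfl
        · rw [hjj]; exact simple_mem_par (Or.inl rfl)
        · rw [hkk]; exact simple_mem_par (Or.inr rfl)
      | one => simp
      | mul x y _ _ hx hy =>
        have : d * (x * y) * d⁻¹ = (d * x * d⁻¹) * (d * y * d⁻¹) := by group
        rw [this]; exact mul_mem hx hy
      | inv x _ hx =>
        have : d * x⁻¹ * d⁻¹ = (d * x * d⁻¹)⁻¹ := by group
        rw [this]; exact inv_mem hx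
    ext x
    constructor
    · intro hx
      have h := hle _ (tr x hx)
      have e : d⁻¹ * (u⁻¹ * (w * x * w⁻¹) * u) * d = v * (w' * x * w'⁻¹) * v⁻¹ := by
        rw [mul_assoc, rel, inv_mul_cancel_left]
      rw [e] at h
      have := mul_mem (mul_mem (inv_mem hv) h) hv
      change w' * x * w'⁻¹ ∈ Par cs {s', t'}
      have e2 : v⁻¹ * (v * (w' * x * w'⁻¹) * v⁻¹) * v = w' * x * w'⁻¹ := by group
      rwa [e2] at this
    · intro hx
      have h := hge _ (tr' x hx)
      rw [← rel] at h
      have := mul_mem (mul_mem hu h) (inv_mem hu)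
      change w * x * w⁻¹ ∈ Par cs {s, t}
      have e2 : u * (u⁻¹ * (w * x * w⁻¹) * u * d * d⁻¹) * u⁻¹ = w * x * w⁻¹ := by group
      rwa [e2] at this
  · rcases hcase with ⟨rfl, rfl⟩ | ⟨rfl, rfl⟩
    · exact Or.inl ⟨d⁻¹, ej', ek'⟩
    · exact Or.inr ⟨d⁻¹, ej', ek'⟩

/-- The elements of `W_{s,t}`. -/
lemma mem_par_cases (s t : B) {x : W} (hx : x ∈ Par cs {s, t}) :
    (∃ k : ℤ, x = (cs.simple s * cs.simple t) ^ k) ∨
      ∃ k : ℤ, x = cs.simple t * (cs.simple s * cs.simple t) ^ k := by
  have hts : (cs.simple s * cs.simple t)⁻¹ = cs.simple t * cs.simple s := by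
    rw [mul_inv_rev, cs.inv_simple, cs.inv_simple]
  have key : ∀ x : W, ((∃ k : ℤ, x = (cs.simple s * cs.simple t) ^ k) ∨
      ∃ k : ℤ, x = cs.simple t * (cs.simple s * cs.simple t) ^ k) →
      ∀ a, a = s ∨ a = t → ((∃ k : ℤ, cs.simple a * x = (cs.simple s * cs.simple t) ^ k) ∨
      ∃ k : ℤ, cs.simple a * x = cs.simple t * (cs.simple s * cs.simple t) ^ k) := by
    rintro x hx a (rfl | rfl)
    · rcases hx with ⟨k, rfl⟩ | ⟨k, rfl⟩
      · right
        refine ⟨k - 1, ?_⟩
        rw [sub_eq_add_neg, add_comm, zpow_add, zpow_neg_one, hts]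
        simp [mul_assoc]
      · left
        refine ⟨k + 1, ?_⟩
        rw [add_comm, zpow_add, zpow_one, mul_assoc]
    · rcases hx with ⟨k, rfl⟩ | ⟨k, rfl⟩
      · right; exact ⟨k, rfl⟩
      · left; exact ⟨k, by simp⟩
  unfold Par at hx
  induction hx using Subgroup.closure_induction_left with
  | one => left; exact ⟨0, by simp⟩
  | mul_left x hx y _ hy =>
    obtain ⟨a, ha, rfl⟩ := hx
    exact key y hy a ha
  | inv_mul_cancel x hx y _ hy =>
    obtain ⟨a, ha, rfl⟩ := hx
    rw [cs.inv_simple]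
    exact key y hy a ha

lemma parity_pow (s t : B) (k : ℤ) :
    cs.lengthParity ((cs.simple s * cs.simple t) ^ k) = 1 := by
  rw [map_zpow, map_mul, cs.lengthParity_simple, cs.lengthParity_simple]
  have : (Multiplicative.ofAdd (1 : ZMod 2)) * Multiplicative.ofAdd 1 = 1 := by decide
  rw [this, one_zpow]

lemma parity_conj (s : B) (w : W) :
    cs.lengthParity (w⁻¹ * cs.simple s * w) = Multiplicative.ofAdd 1 := by
  rw [map_mul, map_mul, mul_comm, ← mul_assoc, ← map_mul, mul_inv_cancel, map_one, one_mul,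
    cs.lengthParity_simple]

lemma odd_elem {w : W} {s t : B} (hst : Fin2 M s t) {x : W} (hx : x ∈ Dh cs w s t)
    (hp : cs.lengthParity x = Multiplicative.ofAdd 1) : ∃ i < M s t, x = ρ cs s t w i := by
  have hx' : w * x * w⁻¹ ∈ Par cs {s, t} := hx
  have hpw : cs.lengthParity (w * x * w⁻¹) = Multiplicative.ofAdd 1 := by
    rw [map_mul, map_mul, mul_comm, ← mul_assoc, ← map_mul, inv_mul_cancel, map_one, one_mul, hp]
  rcases mem_par_cases cs s t hx' with ⟨k, hk⟩ | ⟨k, hk⟩
  · rw [hk, parity_pow] at hpw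
    exact absurd hpw (by decide)
  · have hm : 0 < M s t := Nat.pos_of_ne_zero hst.2
    have h1 := Int.emod_nonneg k (b := (M s t : ℤ)) (by omega)
    have h2 := Int.emod_lt_of_pos k (b := (M s t : ℤ)) (by omega)
    refine ⟨(k % (M s t : ℤ)).toNat, by omega, ?_⟩
    have h3 : (cs.simple s * cs.simple t) ^ k =
        (cs.simple s * cs.simple t) ^ (k % (M s t : ℤ)).toNat := by
      have e : k = ((k % (M s t : ℤ)).toNat : ℤ) + (M s t : ℤ) * (k / (M s t : ℤ)) := by
        rw [Int.toNat_of_nonneg h1]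
        exact (Int.emod_add_mul_ediv k _).symm
      conv_lhs => rw [e, zpow_add, zpow_mul, zpow_natCast, zpow_natCast,
        cs.simple_mul_simple_pow, one_zpow, mul_one]
    unfold ρ
    rw [← h3, ← hk]
    group

lemma ρ_inj {w : W} {s t : B} (hst : Fin2 M s t) {i j : ℕ} (hi : i < M s t) (hj : j < M s t)
    (h : ρ cs s t w i = ρ cs s t w j) : i = j := by
  have h1 : (cs.simple s * cs.simple t) ^ i = (cs.simple s * cs.simple t) ^ j := by
    unfold ρ at h
    exact mul_left_cancel (mul_left_cancel (mul_right_cancel h))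
  have key : ∀ a b : ℕ, a < b → b < M s t →
      (cs.simple s * cs.simple t) ^ a ≠ (cs.simple s * cs.simple t) ^ b := by
    intro a b hab hb h
    apply pow_ne_one (cs := cs) hst.1 hst.2 (k := b - a) (by omega) (by omega)
    have e : (cs.simple s * cs.simple t) ^ b =
        (cs.simple s * cs.simple t) ^ a * (cs.simple s * cs.simple t) ^ (b - a) := by
      rw [← pow_add]; congr 1; omega
    rw [e] at h
    exact (mul_eq_left.1 h.symm)
  rcases lt_trichotomy i j with h2 | h2 | h2
  · exact absurd h1 (key i j h2 hj)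
  · exact h2
  · exact absurd h1.symm (key j i h2 hi)

variable (c : B → B → ℤˣ)

/-- The conjugates of the `W_{s,t}` with `c_{s,t} = -1`. -/
structure Idx where
  w : W
  s : B
  t : B
  fin : Fin2 M s t
  neg : c s t = -1

variable {cs c} in
/-- the subgroup -/
def Idx.dh (y : Idx (M := M) (W := W) c) (cs : CoxeterSystem M W) : Set W := Dh cs y.w y.s y.t

/-- the first reflection -/
def Idx.a (y : Idx (M := M) (W := W) c) : W := y.w⁻¹ * cs.simple y.s * y.w

/-- the second reflection -/
def Idx.b (y : Idx (M := M) (W := W) c) : W := y.w⁻¹ * cs.simple y.t * y.w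

/-- The chosen pairs. -/
def D (α β : W) : Prop :=
  ∃ (K : Set W) (h : ∃ y : Idx (M := M) (W := W) c, y.dh cs = K),
    α = h.choose.a cs c ∧ β = h.choose.b cs c

lemma ab_ne (y : Idx (M := M) (W := W) c) : y.a cs c ≠ y.b cs c := by
  intro h
  exact y.fin.1 (simple_injective cs (mul_left_cancel (mul_right_cancel h)))

lemma a_ne_one (y : Idx (M := M) (W := W) c) : y.a cs c ≠ 1 := by
  intro h
  have := parity_conj cs y.s y.w
  rw [show y.w⁻¹ * cs.simple y.s * y.w = 1 from h, map_one] at this
  exact absurd this (by decide)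

lemma b_ne_one (y : Idx (M := M) (W := W) c) : y.b cs c ≠ 1 := by
  intro h
  have := parity_conj cs y.t y.w
  rw [show y.w⁻¹ * cs.simple y.t * y.w = 1 from h, map_one] at this
  exact absurd this (by decide)

lemma a_mem (y : Idx (M := M) (W := W) c) : y.a cs c ∈ y.dh cs := by
  change y.w * (y.w⁻¹ * cs.simple y.s * y.w) * y.w⁻¹ ∈ Par cs {y.s, y.t}
  have : y.w * (y.w⁻¹ * cs.simple y.s * y.w) * y.w⁻¹ = cs.simple y.s := by group
  rw [this]; exact simple_mem_par (Or.inl rfl)

lemma b_mem (y : Idx (M := M) (W := W) c) : y.b cs c ∈ y.dh cs := by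
  change y.w * (y.w⁻¹ * cs.simple y.t * y.w) * y.w⁻¹ ∈ Par cs {y.s, y.t}
  have : y.w * (y.w⁻¹ * cs.simple y.t * y.w) * y.w⁻¹ = cs.simple y.t := by group
  rw [this]; exact simple_mem_par (Or.inr rfl)

lemma D_irrefl (r : W) : ¬ D cs c r r := by
  rintro ⟨K, h, h1, h2⟩
  exact ab_ne cs c _ (h1.symm.trans h2)

variable {c} (hc : IsSignChoice cs c)
include hc

lemma D_on {w : W} {s t : B} (hst : Fin2 M s t) {α β : W} (hα : α ∈ Dh cs w s t)
    (hβ : β ∈ Dh cs w s t) (h : D cs c α β) : c s t = -1 ∧
      ∃ h : ∃ y : Idx (M := M) (W := W) c, y.dh cs = Dh cs w s t,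
        α = h.choose.a cs c ∧ β = h.choose.b cs c := by
  obtain ⟨K, h, h1, h2⟩ := h
  have hK : h.choose.dh cs = K := h.choose_spec
  have hα' : α ∈ h.choose.dh cs := by rw [h1]; exact a_mem cs c _
  have hβ' : β ∈ h.choose.dh cs := by rw [h2]; exact b_mem cs c _
  have hne : α ≠ β := by rw [h1, h2]; exact ab_ne cs c _
  have hα1 : α ≠ 1 := by rw [h1]; exact a_ne_one cs c _
  have hβ1 : β ≠ 1 := by rw [h2]; exact b_ne_one cs c _
  obtain ⟨e, hs⟩ := Dh_unique cs hst.1 h.choose.fin.1 hα1 hβ1 hne hα hβ hα' hβ'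
  have e' : K = Dh cs w s t := by rw [← hK]; exact e.symm
  refine ⟨?_, ?_⟩
  · have hfin := h.choose.fin
    have hneg := h.choose.neg
    rcases hs with hs | hs
    · rw [hc.sim s t _ _ hst hfin hs, hneg]
    · have hfin' : Fin2 M h.choose.t h.choose.s :=
        ⟨hfin.1.symm, by rw [M.symmetric]; exact hfin.2⟩
      rw [hc.sim s t _ _ hst hfin' hs, hc.symm _ _ hfin', hneg]
  · subst e'
    exact ⟨h, h1, h2⟩

open Classical in
lemma D_parity (s t : B) (hst : Fin2 M s t) (w : W) :
    ∑ i ∈ Finset.range (M s t), ∑ j ∈ Finset.range (M s t),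
      (if D cs c (ρ cs s t w i) (ρ cs s t w j) then (1 : ZMod 2) else 0) =
      if c s t = -1 then 1 else 0 := by
  have hρ : ∀ i, ρ cs s t w i ∈ Dh cs w s t := by
    intro i
    change w * (w⁻¹ * (cs.simple t * (cs.simple s * cs.simple t) ^ i) * w) * w⁻¹ ∈ Par cs {s, t}
    have e : w * (w⁻¹ * (cs.simple t * (cs.simple s * cs.simple t) ^ i) * w) * w⁻¹ =
        cs.simple t * (cs.simple s * cs.simple t) ^ i := by group
    have hs : cs.simple s ∈ Par cs {s, t} := simple_mem_par (Set.mem_insert s _)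
    have ht : cs.simple t ∈ Par cs {s, t} :=
      simple_mem_par (Set.mem_insert_of_mem s (Set.mem_singleton t))
    rw [e]
    exact mul_mem ht (pow_mem (mul_mem hs ht) i)
  by_cases hcs : c s t = -1
  · rw [if_pos hcs]
    have h0 : ∃ y : Idx (M := M) (W := W) c, y.dh cs = Dh cs w s t := ⟨⟨w, s, t, hst, hcs⟩, rfl⟩
    have hspec : h0.choose.dh cs = Dh cs w s t := h0.choose_spec
    have hma : h0.choose.a cs c ∈ Dh cs w s t := hspec.subset (a_mem cs c _)
    have hmb : h0.choose.b cs c ∈ Dh cs w s t := hspec.subset (b_mem cs c _)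
    obtain ⟨i0, hi0, ei⟩ := odd_elem cs hst hma (parity_conj cs _ _)
    obtain ⟨j0, hj0, ej⟩ := odd_elem cs hst hmb (parity_conj cs _ _)
    have hiff : ∀ i < M s t, ∀ j < M s t,
        (D cs c (ρ cs s t w i) (ρ cs s t w j) ↔ i = i0 ∧ j = j0) := by
      intro i hi j hj
      constructor
      · intro h
        obtain ⟨-, h', h1, h2⟩ := D_on cs hc hst (hρ i) (hρ j) h
        exact ⟨ρ_inj cs hst hi hi0 (h1.trans ei), ρ_inj cs hst hj hj0 (h2.trans ej)⟩
      · rintro ⟨rfl, rfl⟩
        exact ⟨_, h0, ei.symm, ej.symm⟩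
    rw [Finset.sum_eq_single i0, Finset.sum_eq_single j0]
    · rw [if_pos ((hiff i0 hi0 j0 hj0).2 ⟨rfl, rfl⟩)]
    · intro j hj hne
      rw [if_neg]
      rw [hiff i0 hi0 j (Finset.mem_range.1 hj)]
      exact fun h => hne h.2
    · intro h
      exact absurd (Finset.mem_range.2 hj0) h
    · intro i hi hne
      apply Finset.sum_eq_zero
      intro j hj
      rw [if_neg]
      rw [hiff i (Finset.mem_range.1 hi) j (Finset.mem_range.1 hj)]
      exact fun h => hne h.1
    · intro h
      exact absurd (Finset.mem_range.2 hi0) h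
  · rw [if_neg hcs]
    apply Finset.sum_eq_zero
    intro i _
    apply Finset.sum_eq_zero
    intro j _
    rw [if_neg]
    intro h
    exact hcs (D_on cs hc hst (hρ i) (hρ j) h).1

end choice

lemma q_ne_one [Finite B] (cs : CoxeterSystem M W) {c : B → B → ℤˣ} (hc : IsSignChoice cs c) :
    q M c ≠ 1 := by
  classical
  cases nonempty_fintype B
  refine q_ne_one_of cs c (D cs c) (D_irrefl cs c) ?_
  intro s t hst w
  have := D_parity cs hc s t hst w
  convert this

/-- **Exactness of `1 → ℤ/2 → W' → W → 1`.** Let `(W, S)` be a Coxeter system with `S` finite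
and `c` a sign choice. The homomorphism `ι : ℤ/2 → W'` which sends the generator to `q` is
injective, its image is the kernel of `π : W' → W`, and `π` is surjective. In particular
`q ≠ 1`. -/
theorem result [Finite B] (cs : CoxeterSystem M W) (c : B → B → ℤˣ) (hc : IsSignChoice cs c) :
    q M c ≠ 1 ∧
    ∃ ι : Multiplicative (ZMod 2) →* W' M c, ι (Multiplicative.ofAdd 1) = q M c ∧
      Function.Injective ι ∧ ι.range = (π cs c).ker ∧ Function.Surjective (π cs c) := by
  have h1 := q_ne_one cs hc
  refine ⟨h1, ?_⟩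
  have ho : orderOf (q M c) = 2 := orderOf_eq_prime (q_sq c) h1
  let ι : Multiplicative (ZMod 2) →* W' M c :=
    AddMonoidHom.toMultiplicativeLeft (ZMod.lift 2 ⟨(zmultiplesHom (Additive (W' M c)))
      (Additive.ofMul (q M c)), by
        change (2 : ℤ) • Additive.ofMul (q M c) = 0
        rw [← ofMul_zpow]
        have : q M c ^ (2 : ℤ) = 1 := by
          rw [show (2 : ℤ) = ((2 : ℕ) : ℤ) from rfl, zpow_natCast, q_sq]
        rw [this]; rfl⟩)
  have hι : ι (Multiplicative.ofAdd 1) = q M c := by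
    change Additive.toMul (ZMod.lift 2 _ (1 : ZMod 2)) = _
    have : (1 : ZMod 2) = ((1 : ℤ) : ZMod 2) := by simp
    rw [this, ZMod.lift_coe]
    simp
  have hel : ∀ x : Multiplicative (ZMod 2), x = 1 ∨ x = Multiplicative.ofAdd 1 := by decide
  refine ⟨ι, hι, ?_, ?_, π_surjective cs c⟩
  · rw [injective_iff_map_eq_one]
    intro x hx
    rcases hel x with rfl | rfl
    · rfl
    · rw [hι] at hx
      exact absurd hx h1
  · rw [ker_π]
    apply le_antisymm
    · rintro _ ⟨x, rfl⟩
      rcases hel x with rfl | rfl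
      · rw [map_one]; exact one_mem _
      · rw [hι]; exact Subgroup.mem_zpowers _
    · rw [Subgroup.zpowers_le]
      exact ⟨_, hι⟩

end Pool.Agent.Results.MP_07fa45_al.SignExtension
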